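import Pool.Agent.Lib.MP_ab3cdc_lc.Core

/-!
The combinatorial core with constraints given by a morphism to a finite monoid.
-/

namespace Pool.Agent.Lib.MP_ab3cdc_lc.Reg

variable {A B V I M : Type} [Monoid M]

/-- The value of a word under the morphism given by the values `f` of the letters. -/
def wt (f : A → M) (x : List A) : M := (x.map f).prod

@[simp] lemma wt_nil (f : A → M) : wt f [] = 1 := rfl

@[simp] lemma wt_cons (f : A → M) (a : A) (x : List A) : wt f (a :: x) = f a * wt f x := by
  simp [wt]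

@[simp] lemma wt_append (f : A → M) (x y : List A) : wt f (x ++ y) = wt f x * wt f y := by
  simp [wt]

@[simp] lemma wt_replicate (f : A → M) (k : ℕ) (a : A) :
    wt f (List.replicate k a) = f a ^ k := by
  simp [wt]

lemma wt_flatten (f : A → M) (l : List (List A)) : wt f l.flatten = wt (wt f) l := by
  induction l with
  | nil => rfl
  | cons y l ih => simp [ih]

lemma wt_flatMap (f : A → M) (d : B → List A) (l : List B) :
    wt f (l.flatMap d) = wt (fun b => wt f (d b)) l := by
  induction l with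
  | nil => rfl
  | cons y l ih => simp [ih]

lemma wt_map_congr {f : A → M} {g : B → M} {r : A → B} {x : List A}
    (h : ∀ a ∈ x, g (r a) = f a) : wt g (x.map r) = wt f x := by
  induction x with
  | nil => rfl
  | cons a x ih =>
    simp [h a List.mem_cons_self, ih (fun b hb => h b (List.mem_cons_of_mem _ hb))]

/-- Bounded solutions with prescribed values. -/
theorem bounded_solution_reg (V : Type) [Finite V] (n : ℕ) (M : Type) [Monoid M] [Finite M] :
    ∃ C : ℕ, ∀ (A : Type) (f : A → M) (rep : M → A), (∀ a, f (rep (f a)) = f a) →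
    ∀ E : Sys A V, SizeLe n E → ∀ τ : V → List A, Solves τ E →
    ∃ τ' : V → List A, Solves τ' E ∧ ∀ x, (τ' x).length ≤ C ∧ wt f (τ' x) = wt f (τ x) ∧
      ∀ a ∈ τ' x, a ∈ letters E ∨ ∃ μ, a = rep μ := by
  classical
  set m := n * (2 * n) with hm
  let B := Fin (m + 1) ⊕ M
  have hfin := finite_sizeLe B V n
  have hch : ∀ p : Sys B V × (B → M) × (V → M), ∃ τ : V → List B,
      (∃ τ₀, Solves τ₀ p.1 ∧ ∀ x, wt p.2.1 (τ₀ x) = p.2.2 x) →
        Solves τ p.1 ∧ ∀ x, wt p.2.1 (τ x) = p.2.2 x := by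
    intro p
    by_cases h : ∃ τ₀, Solves τ₀ p.1 ∧ ∀ x, wt p.2.1 (τ₀ x) = p.2.2 x
    · obtain ⟨τ₀, h₀⟩ := h; exact ⟨τ₀, fun _ => h₀⟩
    · exact ⟨fun _ => [], fun h' => absurd h' h⟩
  choose sol hsol using hch
  obtain ⟨C, hC⟩ : BddAbove ((fun p : (Sys B V × (B → M) × (V → M)) × V =>
      (sol p.1 p.2).length) '' (({E | SizeLe n E} ×ˢ Set.univ) ×ˢ Set.univ)) :=
    (((hfin.prod Set.finite_univ).prod Set.finite_univ).image _).bddAbove
  refine ⟨C, fun A f rep hrep E hE τ hτ => ?_⟩
  have hl := length_letters hE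
  let r : A → B := fun a => if a ∈ letters E then Sum.inl ⟨(letters E).idxOf a,
    Nat.lt_succ_of_le (List.idxOf_le_length.trans hl)⟩ else Sum.inr (f a)
  let d : B → List A := Sum.elim (fun i => ((letters E)[i.1]?).toList) fun μ => [rep μ]
  have hdr : ∀ a ∈ letters E, d (r a) = [a] := by
    intro a ha
    simp [d, r, ha, List.getElem?_idxOf ha]
  have hwr : ∀ a, wt f (d (r a)) = f a := by
    intro a
    by_cases ha : a ∈ letters E
    · simp [hdr a ha]
    · simp [d, r, ha, hrep]
  let E' : Sys B V := E.map (fun e => (e.1.map (Sum.map r id), e.2.map (Sum.map r id)))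
  have hE' : SizeLe n E' := by
    refine ⟨by simpa [E'] using hE.1, ?_⟩
    intro e he
    obtain ⟨e₀, he₀, rfl⟩ := List.mem_map.1 he
    simpa using hE.2 e₀ he₀
  let p : Sys B V × (B → M) × (V → M) := (E', fun b => wt f (d b), fun x => wt f (τ x))
  obtain ⟨hs, hw⟩ : Solves (sol p) E' ∧ ∀ x, wt (fun b => wt f (d b)) (sol p x) = wt f (τ x) := by
    refine hsol p ⟨fun x => (τ x).map r, ?_, fun x => wt_map_congr fun a _ => hwr a⟩
    intro e he
    obtain ⟨e₀, he₀, rfl⟩ := List.mem_map.1 he
    simp only [subst_map_letters, hτ e₀ he₀]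
  refine ⟨fun x => (sol p x).flatMap d, ?_, fun x => ⟨?_, ?_, ?_⟩⟩
  · intro e he
    rw [subst_dec r d _ e.1 (fun a ha => hdr a (mem_letters.2 ⟨e, he, Or.inl ha⟩)),
      subst_dec r d _ e.2 (fun a ha => hdr a (mem_letters.2 ⟨e, he, Or.inr ha⟩))]
    exact congrArg _ (hs _ (List.mem_map.2 ⟨e, he, rfl⟩))
  · have h1 : (sol p x).length ≤ C := hC ⟨(p, x), ⟨⟨hE', trivial⟩, trivial⟩, rfl⟩
    refine le_trans ?_ h1
    show ((sol p x).flatMap d).length ≤ _
    generalize sol p x = l
    induction l with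
    | nil => simp
    | cons i l ih =>
      have : (d i).length ≤ 1 := by
        rcases i with i | μ
        · simp only [d, Sum.elim_inl]; cases (letters E)[i.1]? <;> simp
        · simp [d]
      simp only [List.flatMap_cons, List.length_append, List.length_cons]; omega
  · rw [wt_flatMap, hw]
  · intro a ha
    obtain ⟨i, -, hi⟩ := List.mem_flatMap.1 ha
    rcases i with i | μ
    · simp only [d, Sum.elim_inl, Option.mem_toList] at hi
      exact Or.inl (List.mem_of_getElem? hi)
    · exact Or.inr ⟨μ, by simpa [d] using hi⟩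

/-- A common index and period for all elements of a finite monoid. -/
lemma exists_period (M : Type) [Monoid M] [Finite M] :
    ∃ N, 0 < N ∧ ∀ (m : M) (k t : ℕ), N ≤ k → m ^ (k + t * N) = m ^ k := by
  obtain ⟨i, j, hij, h⟩ : ∃ i j : ℕ, i < j ∧ ∀ m : M, m ^ i = m ^ j := by
    obtain ⟨i, j, h1, h2⟩ := Finite.exists_ne_map_eq_of_infinite (fun (k : ℕ) (m : M) => m ^ k)
    rcases lt_or_gt_of_ne h1 with h | h
    · exact ⟨i, j, h, congrFun h2⟩
    · exact ⟨j, i, h, congrFun h2.symm⟩
  obtain ⟨p, rfl⟩ : ∃ p, j = i + (p + 1) := ⟨j - i - 1, by omega⟩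
  have h1 : ∀ (m : M) (k t : ℕ), i ≤ k → m ^ (k + t * (p + 1)) = m ^ k := by
    intro m k t hk
    induction t with
    | zero => simp
    | succ t ih =>
      obtain ⟨s, hs⟩ : ∃ s, k + t * (p + 1) = i + s := ⟨k + t * (p + 1) - i, by omega⟩
      rw [← ih, Nat.succ_mul, ← add_assoc, hs, add_right_comm, pow_add, ← h m, ← pow_add]
  refine ⟨(i + 1) * (p + 1), by positivity, fun m k t hk => ?_⟩
  rw [← mul_assoc]
  exact h1 m k _ (by nlinarith)

/-- The reduced exponent. -/
def red (N l : ℕ) : ℕ := if l < N then l else N + (l - N) % N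

lemma red_spec {N : ℕ} (hN : 0 < N) (l : ℕ) :
    red N l ≤ 2 * N ∧ ∃ t, l = red N l + t * N ∧ (t = 0 ∨ N ≤ red N l) := by
  unfold red
  split_ifs with h
  · exact ⟨by omega, 0, by simp, Or.inl rfl⟩
  · have h1 := Nat.mod_lt (l - N) hN
    have h2 := Nat.mod_add_div' (l - N) N
    exact ⟨by omega, (l - N) / N, by omega, Or.inr (by omega)⟩

lemma val_rep (x : I → ℕ) (L : List I) (N : ℕ) :
    val x (List.replicate N L).flatten = val x L * N := by
  induction N with
  | zero => simp
  | succ N ih =>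
    have : ∀ L L' : List I, val x (L ++ L') = val x L + val x L' := fun L L' => by simp [val]
    rw [List.replicate_succ, List.flatten_cons, this, ih]
    ring

lemma val_mul (x : I → ℕ) (L : List I) (N : ℕ) : val (fun i => x i * N) L = val x L * N := by
  induction L with
  | nil => simp
  | cons i L ih => simp [ih, add_mul]

theorem linear_shrink_reg (I : Type) [Finite I] (n : ℕ) {N : ℕ} (hN : 0 < N) :
    ∃ c : ℕ, ∀ (x : I → ℕ) (T : ℕ),
    ∃ x' : I → ℕ, (∀ i, x' i ≤ x i) ∧ (∀ i, x' i ≤ c * (T + 1)) ∧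
      (∀ i, x' i = x i ∨ ∃ r s t, N ≤ r ∧ x' i = r + s * N ∧ x i = r + t * N) ∧
      ∀ L L' : List I, L.length ≤ n → L'.length ≤ n → ∀ κ κ' : ℕ, κ ≤ T → κ' ≤ T →
        val x L + κ = val x L' + κ' → val x' L + κ = val x' L' + κ' := by
  obtain ⟨c, hc⟩ := linear_shrink I (N * n)
  refine ⟨2 * N + c * N * (1 + n * (2 * N)), fun x T => ?_⟩
  choose q hq1 hq2 using fun i => (red_spec hN (x i)).2
  have hr : ∀ i, red N (x i) ≤ 2 * N := fun i => (red_spec hN (x i)).1
  obtain ⟨q', h1, h2, h3⟩ := hc q (T + n * (2 * N))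
  refine ⟨fun i => red N (x i) + q' i * N, fun i => ?_, fun i => ?_, fun i => ?_, ?_⟩
  · have := Nat.mul_le_mul_right N (h1 i)
    have := hq1 i
    beta_reduce
    omega
  · have a1 := Nat.mul_le_mul_right N (h2 i)
    have a2 := hr i
    have a3 : T + n * (2 * N) ≤ (1 + n * (2 * N)) * (T + 1) := by nlinarith [Nat.zero_le (n * (2 * N) * T)]
    have a4 := Nat.mul_le_mul_left (c * N) a3
    nlinarith [Nat.zero_le (N * T)]
  · rcases hq2 i with h | h
    · have a1 := h1 i
      have a2 := hq1 i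
      have a3 : q' i = 0 := by omega
      rw [h] at a2
      left
      beta_reduce
      rw [a3]
      omega
    · exact Or.inr ⟨_, _, _, h, rfl, hq1 i⟩
  · intro L L' hL hL' κ κ' hκ hκ' he
    have e : ∀ L : List I, val x L = val (fun i => red N (x i)) L + val q L * N := fun L => by
      rw [← val_mul, ← val_add]
      congr 1
      funext i
      exact hq1 i
    have b : ∀ L : List I, L.length ≤ n → val (fun i => red N (x i)) L ≤ n * (2 * N) :=
      fun L hL => (val_le hr L).trans (Nat.mul_le_mul_right _ hL)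
    have l : ∀ L : List I, L.length ≤ n → (List.replicate N L).flatten.length ≤ N * n :=
      fun L hL => by simpa using Nat.mul_le_mul_left N hL
    have a1 := h3 _ _ (l L hL) (l L' hL') (κ + val (fun i => red N (x i)) L)
      (κ' + val (fun i => red N (x i)) L') (Nat.add_le_add hκ (b L hL))
      (Nat.add_le_add hκ' (b L' hL')) (by
        rw [val_rep, val_rep]
        rw [e L, e L'] at he
        omega)
    rw [val_rep, val_rep] at a1
    rw [val_add, val_add, val_mul, val_mul]
    omega

lemma wt_ri [DecidableEq A] (f : A → M) (o : A) (φ : ℕ → ℕ) (hφ : ∀ k, f o ^ φ k = f o ^ k)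
    (k b : ℕ) (y : List A) (hb : f o ^ b = f o ^ tc o k y) :
    wt f (ri o φ k y ++ List.replicate b o) = f o ^ k * wt f y := by
  induction y generalizing k with
  | nil => simpa [ri, tc] using hb
  | cons a y ih =>
    by_cases h : a = o
    · subst h
      simp only [ri, tc, if_true] at hb ⊢
      rw [ih (k + 1) hb, pow_succ, wt_cons, mul_assoc]
    · simp only [ri, tc, h, if_false] at hb ⊢
      have := ih 0 hb
      rw [pow_zero, one_mul] at this
      rw [List.append_assoc, List.cons_append, wt_append, wt_replicate, hφ, wt_cons, this, wt_cons]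

/-- Long runs of one letter can be shortened. -/
theorem run_shrink_reg (V : Type) [Finite V] (n : ℕ) (M : Type) [Monoid M] [Finite M] :
    ∃ c : ℕ, ∀ (A : Type) (f : A → M) (o : A) (E : Sys A V)
    (T : ℕ), (∀ e ∈ E, nvars e.1 ≤ n ∧ nvars e.2 ≤ n ∧ RB o T (subst (fun _ => []) e.1) ∧
      RB o T (subst (fun _ => []) e.2)) → ∀ τ : V → List A, Solves τ E →
    ∃ τ' : V → List A, Solves τ' E ∧ ∀ x, (τ' x).Sublist (τ x) ∧ RB o (c * (T + 1)) (τ' x) ∧
      wt f (τ' x) = wt f (τ x) := by
  classical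
  obtain ⟨N, hN, hper⟩ := exists_period M
  obtain ⟨c, hc⟩ := linear_shrink_reg (V × Bool) (n + 1) hN
  refine ⟨(n + 1) * c + 1 + 2 * N, fun A f o E T hE τ hτ => ?_⟩
  choose a r hr1 hr2 using fun x => run_shape o (τ x)
  let u : V × Bool → ℕ := fun i =>
    if i.2 then a i.1 else ((r i.1).map (fun p => tc o 0 p.2)).getD 0
  obtain ⟨u', hu1, hu2, hu5, hu3⟩ := hc u T
  have hu6 : ∀ i, f o ^ u' i = f o ^ u i := by
    intro i
    rcases hu5 i with h | ⟨r, s, t, h1, h2, h3⟩
    · rw [h]
    · rw [h2, h3, hper _ _ _ h1, hper _ _ _ h1]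
  have hu7 : ∀ L, f o ^ val u' L = f o ^ val u L := by
    intro L
    induction L with
    | nil => rfl
    | cons i L ih => rw [val_cons, val_cons, pow_add, pow_add, ih, hu6]
  let φ : ℕ → ℕ := fun l =>
    if h : ∃ p : List (V × Bool) × ℕ, p.1.length ≤ n + 1 ∧ p.2 ≤ T ∧ l = val u p.1 + p.2 then
      val u' h.choose.1 + h.choose.2 else red N l
  have hφ1 : ∀ L : List (V × Bool), L.length ≤ n + 1 → ∀ κ ≤ T,
      φ (val u L + κ) = val u' L + κ := by
    intro L hL κ hκ
    have h : ∃ p : List (V × Bool) × ℕ, p.1.length ≤ n + 1 ∧ p.2 ≤ T ∧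
        val u L + κ = val u p.1 + p.2 := ⟨(L, κ), hL, hκ, rfl⟩
    simp only [φ, dif_pos h]
    obtain ⟨h1, h2, h3⟩ := h.choose_spec
    exact (hu3 _ _ hL h1 _ _ hκ h2 h3).symm
  have hφ2 : ∀ l, φ l ≤ l := by
    intro l
    simp only [φ]
    split_ifs with h
    · obtain ⟨h1, h2, h3⟩ := h.choose_spec
      have := val_mono hu1 h.choose.1
      omega
    · obtain ⟨-, t, h1, -⟩ := red_spec hN l
      omega
  have hφ4 : ∀ l, f o ^ φ l = f o ^ l := by
    intro l
    simp only [φ]
    split_ifs with h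
    · obtain ⟨h1, h2, h3⟩ := h.choose_spec
      rw [pow_add, hu7, ← pow_add, ← h3]
    · obtain ⟨-, t, h1, h2 | h2⟩ := red_spec hN l
      · rw [h2, zero_mul, add_zero] at h1
        rw [← h1]
      · rw [← hper _ _ t h2, ← h1]
  have hφ3 : ∀ l, φ l ≤ ((n + 1) * c + 1 + 2 * N) * (T + 1) := by
    intro l
    simp only [φ]
    split_ifs with h
    · obtain ⟨h1, h2, h3⟩ := h.choose_spec
      have h4 := val_le hu2 h.choose.1
      have h5 : h.choose.1.length * (c * (T + 1)) ≤ (n + 1) * (c * (T + 1)) :=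
        Nat.mul_le_mul_right _ h1
      nlinarith [Nat.zero_le (N * (T + 1))]
    · have := (red_spec hN l).1
      nlinarith [Nat.zero_le (((n + 1) * c + 1) * (T + 1)), Nat.zero_le (N * T)]
  have hu4 : ∀ i, u' i ≤ ((n + 1) * c + 1 + 2 * N) * (T + 1) := by
    intro i
    have := hu2 i
    nlinarith [Nat.zero_le (n * c * (T + 1)), Nat.zero_le (N * (T + 1))]
  let τ' : V → List A := fun x => List.replicate (u' (x, true)) o ++
    (match r x with
      | none => []
      | some (c, y) => c :: (ri o φ 0 y ++ List.replicate (u' (x, false)) o))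
  have key : ∀ (U : List (A ⊕ V)) (L : List (V × Bool)) (κ : ℕ), L.length + nvars U ≤ n + 1 →
      RB o T (List.replicate κ o ++ subst (fun _ => []) U) →
      List.replicate (val u' L + κ) o ++ subst τ' U = rr o φ (val u L + κ) (subst τ U) := by
    intro U
    induction U with
    | nil =>
      intro L κ hL hR
      have hκ : κ ≤ T := hR κ (by simp)
      simp [rr, ri, tc, hφ1 L (by simpa [nvars] using hL) κ hκ]
    | cons t U ih =>
      intro L κ hL hR
      have hκ : κ ≤ T := hR κ (List.prefix_append _ _).isInfix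
      have hR0 : RB o T (List.replicate 0 o ++ subst (fun _ => []) U) := by
        intro s hs
        refine hR s (hs.trans ?_)
        cases t with
        | inl b => exact ⟨List.replicate κ o ++ [b], [], by simp⟩
        | inr x => exact ⟨List.replicate κ o, [], by simp⟩
      cases t with
      | inl b =>
        have hL' : L.length + nvars U ≤ n + 1 := by simpa [nvars] using hL
        by_cases hb : b = o
        · subst hb
          have := ih L (κ + 1) hL'
            (by simpa [List.replicate_succ'] using hR)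
          rw [← add_assoc, List.replicate_succ'] at this
          simpa [rr, ri, tc, add_assoc] using this
        · have := ih [] 0 (by simp; omega) hR0
          simp only [val_nil, add_zero, List.replicate_zero, List.nil_append] at this
          simp only [subst_inl, this, rr, ri, tc, hb, if_false, hφ1 L (by omega) κ hκ]
          simp
      | inr x =>
        have hL' : L.length + nvars U + 1 ≤ n + 1 := by
          have e : nvars (Sum.inr x :: U) = nvars U + 1 := List.countP_cons_of_pos rfl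
          omega
        have hux : u (x, true) = a x := by simp [u]
        rcases hrx : r x with _ | ⟨c, y⟩
        · have := ih ((x, true) :: L) κ (by simp; omega) (by simpa using hR)
          simp only [subst_inr, hr1 x hrx, rr_append, ri_replicate, tc_replicate, τ', hrx,
            List.nil_append, List.append_nil]
          rw [← List.append_assoc, ← List.replicate_add]
          simp only [val_cons, hux] at this
          convert this using 2
          · congr 1; omega
          · omega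
        · obtain ⟨hco, hx⟩ := hr2 x c y hrx
          have hux' : u (x, false) = tc o 0 y := by simp [u, hrx]
          have h1 := ih [(x, false)] 0 (by simp; omega) hR0
          have h2 := hφ1 ((x, true) :: L) (by simp; omega) κ hκ
          simp only [val_cons, val_nil, add_zero, hux, hux'] at h1 h2
          simp only [subst_inr, hx, List.append_assoc, rr_append, ri_replicate, tc_replicate,
            τ', hrx, List.nil_append, List.cons_append]
          have h3 : rr o φ (val u L + κ + a x) (c :: (y ++ subst τ U)) =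
              List.replicate (φ (val u L + κ + a x)) o ++ c :: rr o φ 0 (y ++ subst τ U) := by
            simp [rr, ri, tc, hco]
          rw [h3, rr_append, ← h1, ← List.append_assoc, ← List.replicate_add]
          have h4 : val u L + κ + a x = a x + val u L + κ := by omega
          rw [h4, h2]
          congr 2
          omega
  refine ⟨τ', fun e he => ?_, fun x => ⟨?_, ?_, ?_⟩⟩
  · obtain ⟨h1, h2, h3, h4⟩ := hE e he
    have k1 := key e.1 [] 0 (by simp; omega) (by simpa using h3)
    have k2 := key e.2 [] 0 (by simp; omega) (by simpa using h4)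
    simp only [val_nil, add_zero, List.replicate_zero, List.nil_append] at k1 k2
    rw [k1, k2, hτ e he]
  · have hux : u' (x, true) ≤ a x := by simpa [u] using hu1 (x, true)
    rcases hrx : r x with _ | ⟨c, y⟩
    · simp only [τ', hrx, List.append_nil, hr1 x hrx]
      simpa using hux
    · obtain ⟨hco, hx⟩ := hr2 x c y hrx
      have hux' : u' (x, false) ≤ tc o 0 y := by simpa [u, hrx] using hu1 (x, false)
      simp only [τ', hrx, hx]
      refine List.Sublist.append (by simpa using hux) (List.Sublist.cons_cons _ ?_)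
      simpa using ri_sublist o φ hφ2 0 _ y hux'
  · rcases hrx : r x with _ | ⟨c, y⟩
    · simp only [τ', hrx, List.append_nil]
      exact RB_replicate o (hu4 _)
    · obtain ⟨hco, hx⟩ := hr2 x c y hrx
      simp only [τ', hrx]
      exact RB_split o hco (RB_replicate o (hu4 _)) (RB_ri o φ hφ3 0 _ y (hu4 _))
  · have hux : f o ^ u' (x, true) = f o ^ a x := by simpa [u] using hu6 (x, true)
    rcases hrx : r x with _ | ⟨c, y⟩
    · simp only [τ', hrx, List.append_nil, hr1 x hrx, wt_replicate, hux]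
    · obtain ⟨hco, hx⟩ := hr2 x c y hrx
      have hux' : f o ^ u' (x, false) = f o ^ tc o 0 y := by simpa [u, hrx] using hu6 (x, false)
      have h1 := wt_ri f o φ hφ4 0 _ y hux'
      rw [pow_zero, one_mul] at h1
      simp only [τ', hrx, hx]
      rw [wt_append, wt_cons, h1, wt_append, wt_cons, wt_replicate, wt_replicate, hux]

/-- `σ` has minimal total length among the solutions that agree with it on the variables
with value in `F`. -/
def MinSolR [Fintype V] (f : A → M) (E : Sys A V) (F : Set (List A)) (σ : V → List A) : Prop :=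
  Solves σ E ∧ ∀ σ', Solves σ' E → (∀ x, σ x ∈ F → σ' x = σ x) →
    (∀ x, wt f (σ' x) = wt f (σ x)) →
    ∑ x, (σ x).length ≤ ∑ x, (σ' x).length

/-- The bound on the exponent of periodicity relative to `F`. -/
theorem exponent_bound_reg (V : Type) [Fintype V] (n : ℕ) (Mo : Type) [Monoid Mo] [Finite Mo] :
    ∃ K : ℕ, ∀ (A : Type) (f : A → Mo) (E : Sys A V),
    SizeLe n E → ∀ F : Set (List A), Factorial F → (∀ a, [a] ∈ F) → ∀ σ, MinSolR f E F σ →
    ∀ (ω : ℕ → A) (p N : ℕ), 0 < p → (∀ i, ω (i + p) = ω i) →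
      (∀ q, 0 < q → q < p → ¬ ∀ j, ω (j + q) = ω j) → p ≤ N → seg ω 0 N ∉ F →
      ∀ x l, seg ω 0 l <:+: σ x → l ≤ K * N := by
  classical
  obtain ⟨c, hc⟩ := run_shrink_reg V (3 * n) Mo
  refine ⟨c * (12 * n + 1) + 2, fun A f E hE F hF hF1 σ hσ ω p N hp0 hp hprim hpN hN x₀ l hl => ?_⟩
  set u := seg ω 0 p with hu
  have hul : u.length = p := by simp [hu]
  let M : List A → Prop := fun y => u <:+ y
  let lg : V → Prop := fun x => u <:+: σ x ∧ σ x ∉ F
  have hdec : ∀ x, ∃ P B S : List A, lg x → σ x = P ++ B ++ S ∧ M P ∧ M (P ++ B) ∧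
      (∀ z, z <+: σ x → M z → P.length ≤ z.length) ∧
      (∀ z, z <+: σ x → M z → z.length ≤ (P ++ B).length) := by
    intro x
    by_cases hx : lg x
    · obtain ⟨s, t, hst⟩ := hx.1
      have hex : ∃ z, z <+: σ x ∧ M z := ⟨s ++ u, ⟨t, hst⟩, List.suffix_append _ _⟩
      obtain ⟨P, hP1, hP2, hP3⟩ := exists_min_prefix M _ hex
      obtain ⟨Q, hQ1, hQ2, hQ3⟩ := exists_max_prefix M _ hex
      obtain ⟨B, rfl⟩ := List.prefix_of_prefix_length_le hP1 hQ1 (hP3 Q hQ1 hQ2)
      obtain ⟨S, hS⟩ := hQ1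
      exact ⟨P, B, S, fun _ => ⟨hS.symm, hP2, hQ2, hP3, hQ3⟩⟩
    · exact ⟨[], [], [], fun h => absurd h hx⟩
  choose P B S hPBS using hdec
  let F' : Set (List A) := {y | ¬ seg ω 0 N <:+: y}
  have hFF' : F ⊆ F' := fun y hy h => hN (hF _ _ h hy)
  have hF' : Factorial F' := fun y z hz hy h => hy (h.trans hz)
  have huF' : ∀ y, ¬ u <:+: y → y ∈ F' := fun y hy h =>
    hy ((seg_prefix ω hpN).isInfix.trans h)
  have h1 : ∀ x, lg x → P x ≠ [] ∧ (∀ c, M (c ++ P x)) ∧ M (P x ++ B x) ∧
      ∀ c z, z <+: B x → (M (c ++ P x ++ z) ↔ M (P x ++ z)) := by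
    intro x hx
    obtain ⟨e0, e1, e2, e3, e4⟩ := hPBS x hx
    have e5 : p ≤ (P x).length := hul ▸ e1.length_le
    refine ⟨?_, fun c => e1.trans (List.suffix_append _ _), e2, fun c z _ => ⟨fun h => ?_,
      fun h => ?_⟩⟩
    · intro h; rw [h] at e5; simp at e5; omega
    · rw [List.append_assoc] at h
      exact List.suffix_of_suffix_length_le h (List.suffix_append _ _) (by simp; omega)
    · rw [List.append_assoc]
      exact h.trans (List.suffix_append _ _)
  have hk1 : ∀ x, lg x → FL F' 2 (P x) ∧ FL F' 2 (S x) := by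
    intro x hx
    obtain ⟨e0, e1, e2, e3, e4⟩ := hPBS x hx
    constructor
    · have hne := (h1 x hx).1
      rw [← List.dropLast_append_getLast hne]
      refine (FL.of_mem (huF' _ ?_)).append (FL.of_mem (hFF' (hF1 _)))
      rintro ⟨s, t, hst⟩
      have e5 : s ++ u <+: σ x := by
        rw [e0, List.append_assoc, ← List.dropLast_append_getLast hne, ← hst]
        simp only [List.append_assoc]
        exact (List.prefix_append_right_inj _).2 (List.prefix_append _ _)
      have e6 := e3 _ e5 (List.suffix_append _ _)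
      have e7 := congrArg List.length hst
      have e8 : 0 < (P x).length := List.length_pos_iff.2 hne
      simp at e6 e7
      omega
    · refine (FL.of_mem (huF' _ ?_)).mono (by omega)
      rintro ⟨s, t, hst⟩
      have e5 : P x ++ B x ++ s ++ u <+: σ x := by
        rw [e0, ← hst]
        simp only [List.append_assoc]
        exact (List.prefix_append_right_inj _).2 ((List.prefix_append_right_inj _).2
          ((List.prefix_append_right_inj _).2 (List.prefix_append _ _)))
      have e6 := e4 _ e5 (List.suffix_append _ _)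
      simp only [List.length_append] at e6
      omega
  have hk2 : ∀ x, ¬ lg x → FL F' 2 (σ x) := by
    intro x hx
    refine (FL.of_mem ?_).mono (by omega)
    by_cases h : σ x ∈ F
    · exact hFF' h
    · exact huF' _ (fun h' => hx ⟨h', h⟩)
  obtain ⟨E', hE1, hE2, hE3, -⟩ := parse hE hσ.1 M lg P B S (fun x hx => (hPBS x hx).1) h1 F' 2
    (fun a => (FL.of_mem (hFF' (hF1 a))).mono (by omega)) hk1 hk2
  set T := 3 * n * 2 * (N + p) / p with hT
  have hRB : ∀ y : List (List A), FL F' (3 * n * 2) y.flatten → RB u T y := by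
    intro y hy t ht
    have e1 := infix_flatten ht
    rw [hu, seg_pow hp] at e1
    have e2 := seg_length_le hp hp0 (hy.of_infix hF' e1)
    exact (Nat.le_div_iff_mul_le hp0).2 e2
  obtain ⟨τ', hτ1, hτ2⟩ := hc (List A) (wt f) u E' T (fun e he => ⟨(hE3 e he).1, (hE3 e he).2.1,
    hRB _ (hE3 e he).2.2.1, hRB _ (hE3 e he).2.2.2⟩) _ hE1
  have hfl : ∀ x, lg x → (cut M (P x) [] (B x)).1.flatten = B x := by
    intro x hx
    have e1 := cut_flatten M (P x) [] (B x)
    rwa [cut_rest' M _ _ (h1 x hx).2.2.1, List.append_nil, List.nil_append] at e1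
  have hle : ∀ x ∈ (Finset.univ : Finset V),
      (@ite _ (lg x) (Classical.propDecidable _) (P x ++ (τ' x).flatten ++ S x) (σ x)).length ≤
        (σ x).length := by
    intro x _
    split_ifs with hx
    · have e1 := (sublist_flatten_length (hτ2 x).1 (cut_ne_nil M _ _ _)).1
      rw [hfl x hx] at e1
      rw [(hPBS x hx).1]
      simp only [List.length_append]
      omega
    · exact le_rfl
  have hge := hσ.2 _ (hE2 τ' hτ1) (fun x hx => if_neg (fun h : lg x => h.2 hx)) (fun x => by
    split_ifs with hx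
    · rw [(hPBS x hx).1, wt_append, wt_append, wt_append, wt_append, wt_flatten, (hτ2 x).2.2,
        ← wt_flatten, hfl x hx]
    · rfl)
  have heq := (Finset.sum_eq_sum_iff_of_le hle).1 (le_antisymm (Finset.sum_le_sum hle) hge)
  by_cases hx : σ x₀ ∈ F
  · have : l < N := by
      by_contra hcon
      exact hN (hF _ _ ((seg_prefix ω (not_lt.1 hcon)).isInfix.trans hl) hx)
    nlinarith [Nat.zero_le (c * (12 * n + 1) * N)]
  by_cases hlp : l < p
  · nlinarith [Nat.zero_le (c * (12 * n + 1) * N)]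
  have hlg : lg x₀ := ⟨(seg_prefix ω (not_lt.1 hlp)).isInfix.trans hl, hx⟩
  obtain ⟨e0, e1, e2, e3, e4⟩ := hPBS x₀ hlg
  have hτeq : τ' x₀ = (cut M (P x₀) [] (B x₀)).1 := by
    refine (sublist_flatten_length (hτ2 x₀).1 (cut_ne_nil M _ _ _)).2 ?_
    have e5 := heq x₀ (Finset.mem_univ _)
    rw [if_pos hlg, e0] at e5
    rw [hfl x₀ hlg]
    simp only [List.length_append] at e5
    omega
  obtain ⟨t, ht⟩ : ∃ t, l / p = t + 1 :=
    ⟨l / p - 1, by have := (Nat.le_div_iff_mul_le hp0).2 (show 1 * p ≤ l by omega); omega⟩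
  have hl1 : (t + 1) * p ≤ l := ht ▸ Nat.div_mul_le_self l p
  have hl2 : l < (t + 1 + 1) * p := by
    rw [← ht]; exact Nat.lt_succ_iff.1 (by
      have := Nat.lt_div_mul_add (a := l) hp0
      rw [Nat.succ_mul]; omega)
  have h2 : seg ω 0 ((t + 1) * p) = u ++ seg ω 0 (t * p) := by
    have e3 := seg_shift hp 1 0 (t * p)
    simp only [zero_add, one_mul] at e3
    rw [Nat.succ_mul, add_comm, seg_add, zero_add, e3]
  have h3 : seg ω 0 ((t + 1) * p) = seg ω 0 (t * p) ++ u := by
    have e3 := seg_shift hp t 0 p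
    rw [Nat.succ_mul, seg_add, e3]
  obtain ⟨s, s', hs⟩ := (seg_prefix ω hl1).isInfix.trans hl
  have h4 : s ++ u <+: σ x₀ := by
    rw [← hs, h2]
    simp only [List.append_assoc]
    exact (List.prefix_append_right_inj _).2 (List.prefix_append _ _)
  have h5 : s ++ u ++ seg ω 0 (t * p) <+: σ x₀ := by
    rw [← hs, h2]
    simp only [List.append_assoc]
    exact (List.prefix_append_right_inj _).2 ((List.prefix_append_right_inj _).2
      (List.prefix_append _ _))
  have h6 : M (s ++ u ++ seg ω 0 (t * p)) := by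
    rw [List.append_assoc, ← h2, h3, ← List.append_assoc]
    exact List.suffix_append _ _
  have h7 : P x₀ <+: σ x₀ := by rw [e0, List.append_assoc]; exact List.prefix_append _ _
  have h8 : P x₀ ++ B x₀ <+: σ x₀ := by rw [e0]; exact List.prefix_append _ _
  obtain ⟨B₁, hB₁⟩ := List.prefix_of_prefix_length_le h7 h4 (e3 _ h4 (List.suffix_append _ _))
  obtain ⟨B₂, hB₂⟩ := List.prefix_of_prefix_length_le h5 h8 (e4 _ h5 h6)
  have h9 : B x₀ = B₁ ++ (seg ω 0 (t * p) ++ B₂) := by
    rw [← hB₁] at hB₂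
    simp only [List.append_assoc] at hB₂
    exact (List.append_cancel_left hB₂).symm
  have h10 : List.replicate t u <:+: τ' x₀ := by
    rw [hτeq, h9, cut_append, cut_rest' M _ _ (by rw [hB₁]; exact List.suffix_append _ _),
      cut_append, hB₁]
    simp only [M, hu, cut_pow hp hp0 hprim]
    rw [← List.append_assoc]
    exact List.infix_append _ _ _
  have h11 := (hτ2 x₀).2.1 t h10
  have h12 : T * p ≤ 3 * n * 2 * (N + p) := Nat.div_mul_le_self _ _
  have h13 : t * p ≤ c * ((T + 1) * p) := by rw [← mul_assoc]; exact Nat.mul_le_mul_right _ h11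
  have h14 : c * ((T + 1) * p) ≤ c * ((12 * n + 1) * N) := Nat.mul_le_mul_left _ (by nlinarith)
  nlinarith

lemma FL_length {F : Set (List A)} (hF1 : ∀ a, [a] ∈ F) (y : List A) : FL F y.length y := by
  induction y with
  | nil => exact FL.nil _ _
  | cons a y ih =>
    rw [List.length_cons, add_comm]
    exact (FL.of_mem (hF1 a)).append ih

/-- The main combinatorial theorem: every solution can be replaced by one that has the same
values on the variables with value in the factorial language `F`, and whose values are products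
of boundedly many words of `F`. -/
theorem core_reg (V : Type) [Finite V] (n : ℕ) {Mo : Type} [Monoid Mo] [Finite Mo] (f : A → Mo) :
    ∃ C : ℕ, ∀ E : Sys A V,
    SizeLe n E → ∀ F : Set (List A), Factorial F → [] ∈ F → (∀ a, [a] ∈ F) →
    ∀ σ₀, Solves σ₀ E → ∃ σ', Solves σ' E ∧ (∀ x, σ₀ x ∈ F → σ' x = σ₀ x) ∧
      (∀ x, wt f (σ' x) = wt f (σ₀ x)) ∧ ∀ x, FL F C (σ' x) := by
  classical
  let _ : Fintype V := Fintype.ofFinite V
  obtain ⟨K, hK⟩ := exponent_bound_reg V n Mo
  set k := 2 * (2 * K + 2) + 5 with hk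
  set D := k * ((2 * Fintype.card V) * 2) with hD
  obtain ⟨C, hC⟩ := bounded_solution_reg V (3 * n * (D + 1) + 1 + n) Mo
  have hrep : ∀ y : List A, wt f (Function.invFun (wt f) (wt f y)) = wt f y :=
    fun y => Function.invFun_eq ⟨y, rfl⟩
  obtain ⟨R, hR⟩ := (Set.finite_range fun μ : Mo => (Function.invFun (wt f) μ).length).bddAbove
  refine ⟨k + C * (3 * n * k + R) + k, fun E hE F hF hF0 hF1 σ₀ hσ₀ => ?_⟩
  obtain ⟨σ, ⟨hσ1, hσ2, hσ4⟩, hσ3⟩ :=
    (measure (fun σ : V → List A => ∑ x, (σ x).length)).wf.has_min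
    {σ | Solves σ E ∧ (∀ x, σ₀ x ∈ F → σ x = σ₀ x) ∧ ∀ x, wt f (σ x) = wt f (σ₀ x)}
    ⟨σ₀, hσ₀, fun _ _ => rfl, fun _ => rfl⟩
  have hmin : MinSolR f E F σ := ⟨hσ1, fun σ' h1 h2 h3 => not_lt.1 (hσ3 σ' ⟨h1, fun x hx => by
    rw [h2 x (by rwa [hσ2 x hx]), hσ2 x hx], fun x => (h3 x).trans (hσ4 x)⟩)⟩
  let lg : V → Prop := fun x => ¬ FL F k (σ x)
  have hdec : ∀ x, ∃ P B S g g' : List A, lg x → σ x = P ++ B ++ S ∧ g <:+ P ∧ g' <:+ P ++ B ∧
      ¬ FL F 4 P ∧ FL F k P ∧ FL F k S ∧ FL F 4 g ∧ FL F 4 g' ∧ Sparse F g ∧ Sparse F g' := by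
    intro x
    by_cases hx : lg x
    swap
    · exact ⟨[], [], [], [], [], fun h => absurd h hx⟩
    have hm : ∀ x₁, x₁ <:+: σ x → ¬ FL F (2 * K + 2) x₁ → ∃ m rest g, x₁ = m ++ rest ∧ g <:+ m ∧
        FL F (2 * K + 2) m ∧ FL F 4 g ∧ Sparse F g := fun x₁ h1 h2 =>
      exists_marker hF hF0 (fun ω p N a1 a2 a3 a4 a5 l hl =>
        hK A f E hE F hF hF1 σ hmin ω p N a1 a2 a3 a4 a5 x l (hl.trans h1)) hF1 h2
    obtain ⟨x₀, x₁, e1, e2, e3⟩ := exists_prefix_FL hF1 (k := 4) (x := σ x)
      (fun h => hx (h.mono (by omega)))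
    obtain ⟨m, rest, g, e4, e5, e6, e7, e8⟩ := hm x₁ ⟨x₀, [], by simp [e1]⟩
      (fun h => hx (e1 ▸ (e3.append h).mono (by omega)))
    obtain ⟨B₀, x₂, f1, f2, f3⟩ := exists_suffix_FL hF1 (k := 2 * K + 2) (x := rest)
      (fun h => hx (by
        rw [e1, e4]
        exact (e3.append (e6.append h)).mono (by omega)))
    obtain ⟨m', S, g', f4, f5, f6, f7, f8⟩ := hm x₂ ⟨x₀ ++ m ++ B₀, [], by simp [e1, e4, f1]⟩ f2
    refine ⟨x₀ ++ m, B₀ ++ m', S, g, g', fun _ => ⟨by simp [e1, e4, f1, f4],
      e5.trans (List.suffix_append _ _), ?_, fun h => e2 (h.of_prefix hF (List.prefix_append _ _)),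
      (e3.append e6).mono (by omega), ?_, e7, f7, e8, f8⟩⟩
    · rw [← List.append_assoc]
      exact f5.trans (List.suffix_append _ _)
    · exact (f3.of_suffix hF ⟨m', f4.symm⟩).mono (by omega)
  choose P B S g g' hd using hdec
  let G : Finset (List A) :=
    (Finset.univ.filter lg).image g ∪ (Finset.univ.filter lg).image g'
  have hG : ∀ h ∈ G, FL F 4 h ∧ Sparse F h := by
    intro h hh
    simp only [G, Finset.mem_union, Finset.mem_image, Finset.mem_filter] at hh
    rcases hh with ⟨x, hx, rfl⟩ | ⟨x, hx, rfl⟩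
    · obtain ⟨-, -, -, -, -, -, a, -, b, -⟩ := hd x hx.2
      exact ⟨a, b⟩
    · obtain ⟨-, -, -, -, -, -, -, a, -, b⟩ := hd x hx.2
      exact ⟨a, b⟩
  have hGc : G.card ≤ 2 * Fintype.card V := by
    have h1 := Finset.card_union_le ((Finset.univ.filter lg).image g)
      ((Finset.univ.filter lg).image g')
    have h2 := Finset.card_image_le (s := Finset.univ.filter lg) (f := g)
    have h3 := Finset.card_image_le (s := Finset.univ.filter lg) (f := g')
    have h4 := Finset.card_le_univ (Finset.univ.filter lg)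
    simp only [G]
    omega
  let M : List A → Prop := fun y => ∃ h ∈ G, h <:+ y
  have h1 : ∀ x, lg x → P x ≠ [] ∧ (∀ c, M (c ++ P x)) ∧ M (P x ++ B x) ∧
      ∀ c z, z <+: B x → (M (c ++ P x ++ z) ↔ M (P x ++ z)) := by
    intro x hx
    obtain ⟨a0, a1, a2, a3, -⟩ := hd x hx
    refine ⟨fun h => a3 (h ▸ FL.nil _ _), fun c => ⟨g x, ?_, a1.trans (List.suffix_append _ _)⟩,
      ⟨g' x, ?_, a2⟩, fun c z _ => ⟨?_, ?_⟩⟩
    · simp only [G, Finset.mem_union, Finset.mem_image, Finset.mem_filter]
      exact Or.inl ⟨x, ⟨Finset.mem_univ _, hx⟩, rfl⟩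
    · simp only [G, Finset.mem_union, Finset.mem_image, Finset.mem_filter]
      exact Or.inr ⟨x, ⟨Finset.mem_univ _, hx⟩, rfl⟩
    · rintro ⟨h, hh, hs⟩
      rw [List.append_assoc] at hs
      rcases List.suffix_or_suffix_of_suffix hs (List.suffix_append _ _) with h2 | h2
      · exact ⟨h, hh, h2⟩
      · exact absurd (((hG h hh).1.of_suffix hF h2).of_prefix hF (List.prefix_append _ _)) a3
    · rintro ⟨h, hh, hs⟩
      rw [List.append_assoc]
      exact ⟨h, hh, hs.trans (List.suffix_append _ _)⟩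
  obtain ⟨E', hE1, hE2, hE3, hE4⟩ := parse hE hσ1 M lg P B S (fun x hx => (hd x hx).1) h1 F k
    (fun a => (FL.of_mem (hF1 a)).mono (by omega))
    (fun x hx => ⟨(hd x hx).2.2.2.2.1, (hd x hx).2.2.2.2.2.1⟩) (fun x hx => not_not.1 hx)
  have hsz := hE4 D (fun y hy c cur =>
    (marks_le hF G (fun h hh => (hG h hh).2) hy c cur).trans
      (Nat.mul_le_mul_left _ (Nat.mul_le_mul_right _ hGc)))
  obtain ⟨τ', hτ1, hτ2⟩ := hC (List A) (wt f) _ hrep E' hsz _ hE1
  refine ⟨_, hE2 τ' hτ1, fun x hx => ?_, fun x => ?_, fun x => ?_⟩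
  · have : ¬ lg x := not_not.2 ((FL.of_mem (by rwa [hσ2 x hx])).mono (by omega))
    simp only [if_neg this, hσ2 x hx]
  · rw [← hσ4 x]
    split_ifs with hx
    · have e1 := cut_flatten M (P x) [] (B x)
      rw [cut_rest' M _ _ (h1 x hx).2.2.1, List.append_nil, List.nil_append] at e1
      rw [(hd x hx).1, wt_append, wt_append, wt_append, wt_append, wt_flatten, (hτ2 x).2.1,
        ← wt_flatten, e1]
    · rfl
  · by_cases hx : lg x
    · simp only [if_pos hx]
      refine ((hd x hx).2.2.2.2.1.append ?_).append (hd x hx).2.2.2.2.2.1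
      refine (FL.flatten (k := 3 * n * k + R) (fun q hq => ?_)).mono
        (Nat.mul_le_mul_right _ (hτ2 x).1)
      rcases (hτ2 x).2.2 q hq with h3 | ⟨μ, rfl⟩
      · obtain ⟨e, he, h2 | h2⟩ := mem_letters.1 h3
        · exact ((hE3 e he).2.2.1.of_infix hF
            (List.infix_of_mem_flatten (mem_subst_of_inl h2))).mono (by omega)
        · exact ((hE3 e he).2.2.2.of_infix hF
            (List.infix_of_mem_flatten (mem_subst_of_inl h2))).mono (by omega)
      · exact (FL_length hF1 _).mono ((hR ⟨μ, rfl⟩).trans (by omega))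
    · simp only [if_neg hx]
      exact (not_not.1 hx).mono (by omega)

end Pool.Agent.Lib.MP_ab3cdc_lc.Reg
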