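import Pool.Agent.Lib.MP_ab3cdc_lc.Defs

/-!
Definitions for the comparison of FC[REG]-UCQ queries with word equations with regular constraints.
`A` is the terminal alphabet, `X` the set of variables, words are lists.
-/

namespace Pool.Agent.Lib.MP_ab3cdc_lc.Reg

variable {A X : Type}

/-- The result of the conjunctive query with universe variable `w`, head variables `ys`, atoms
`x ≐ α` in `φ` and constraints `x ∈ L` in `κ`: all pairs of `σ w` and the tuple of the `σ y`, where
every `σ x` is a factor of `σ w` and all atoms and constraints hold. -/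
def cqRel (w : X) (ys : List X) (φ : List (X × List (A ⊕ X))) (κ : List (X × Language A)) :
    Set (List A × List (List A)) :=
  {o | ∃ σ : X → List A, (∀ x, σ x <:+: σ w) ∧ (∀ e ∈ φ, σ e.1 = subst σ e.2) ∧
    (∀ c ∈ κ, σ c.1 ∈ c.2) ∧ o = (σ w, ys.map σ)}

/-- The results of finite unions of conjunctive queries with regular constraints. -/
def ucqClass (A : Type) (w : X) (ys : List X) : Set (Set (List A × List (List A))) :=
  {R | ∃ Φ : List (List (X × List (A ⊕ X)) × List (X × Language A)),
    (∀ q ∈ Φ, ∀ c ∈ q.2, c.2.IsRegular) ∧ R = {o | ∃ q ∈ Φ, o ∈ cqRel w ys q.1 q.2}}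

/-- Existential positive formulas over word equations and regular constraints. -/
inductive EPR (A X : Type) : Type
  | eqn (α β : List (A ⊕ X)) : EPR A X
  | mem (x : X) (L : Language A) (h : L.IsRegular) : EPR A X
  | conj (φ ψ : EPR A X) : EPR A X
  | disj (φ ψ : EPR A X) : EPR A X
  | ex (x : X) (φ : EPR A X) : EPR A X

/-- Satisfaction; variables range over all words. -/
def EPR.Sat : EPR A X → (X → List A) → Prop
  | .eqn α β, σ => subst σ α = subst σ β
  | .mem x L _, σ => σ x ∈ L
  | .conj φ ψ, σ => φ.Sat σ ∧ ψ.Sat σ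
  | .disj φ ψ, σ => φ.Sat σ ∨ ψ.Sat σ
  | .ex x φ, σ => ∃ τ : X → List A, (∀ y, y ≠ x → τ y = σ y) ∧ φ.Sat τ

/-- The relations defined by such formulas between a word and tuples of its factors: only the head
variables have to be factors of `σ w`, all other variables range over all words. -/
def eprClass (A : Type) (w : X) (ys : List X) : Set (Set (List A × List (List A))) :=
  {R | ∃ φ : EPR A X,
    R = {o | ∃ σ : X → List A, φ.Sat σ ∧ (∀ y ∈ ys, σ y <:+: σ w) ∧ o = (σ w, ys.map σ)}}

end Pool.Agent.Lib.MP_ab3cdc_lc.Reg
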