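import Pool.Agent.Lib.MP_ab3cdc_lc.Outer
import Pool.Agent.Lib.MP_ab3cdc_lc.Reg.RDefs

/-!
General equations under the safe semantics are unions of atoms, with a side condition.
-/

namespace Pool.Agent.Lib.MP_ab3cdc_lc.Reg

variable {A V W X O : Type}

/-- Atoms, general equations and a side condition `Q`, with the safe semantics. -/
def gLang (w : X) (Q : (X → List A) → O → Prop) (D : List (X × List (A ⊕ X))) (R : Sys A X) :
    Set O :=
  {o | ∃ σ : X → List A, (∀ x, σ x <:+: σ w) ∧ (∀ e ∈ D, σ e.1 = subst σ e.2) ∧ Solves σ R ∧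
    Q σ o}

/-- Finite unions of sets given by atoms and the side condition. -/
def GU (w : X) (Q : (X → List A) → O → Prop) (L : Set O) : Prop :=
  ∃ Φ : List (List (X × List (A ⊕ X))), L = {o | ∃ φ ∈ Φ, o ∈ gLang w Q φ []}

/-- The side condition depends only on the variables in `vs`. -/
def Dep (vs : List X) (Q : (X → List A) → O → Prop) : Prop :=
  ∀ σ τ o, (∀ x ∈ vs, τ x = σ x) → Q σ o → Q τ o

variable {Q : (X → List A) → O → Prop} {vs : List X}

lemma GU.empty (w : X) : GU w Q (∅ : Set O) := ⟨[], by simp⟩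

lemma GU.union {w : X} {L L' : Set O} (h : GU w Q L) (h' : GU w Q L') : GU w Q (L ∪ L') := by
  obtain ⟨Φ, rfl⟩ := h
  obtain ⟨Φ', rfl⟩ := h'
  refine ⟨Φ ++ Φ', ?_⟩
  ext u
  simp only [Set.mem_union, Set.mem_ofPred_eq, List.mem_append, or_and_right, exists_or]

lemma gLang_swap (w : X) (D : List (X × List (A ⊕ X))) (U U' : List (A ⊕ X)) (R : Sys A X) :
    gLang w Q D ((U, U') :: R) = gLang w Q D ((U', U) :: R) := by
  simp only [gLang, solves_cons, eq_comm (a := subst _ U)]

lemma exists_fresh' [Infinite X] (w : X) (vs : List X) (D : List (X × List (A ⊕ X)))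
    (R : Sys A X) : ∃ r : X, (r ≠ w ∧ r ∉ vs) ∧ (∀ e ∈ D, r ≠ e.1 ∧ Sum.inr r ∉ e.2) ∧
      ∀ e ∈ R, Sum.inr r ∉ e.1 ∧ Sum.inr r ∉ e.2 := by
  obtain ⟨r, h1, h2, h3⟩ := exists_fresh w (vs.map (fun x => (x, [])) ++ D) R
  exact ⟨r, ⟨h1, fun h => (h2 (r, []) (List.mem_append_left _ (List.mem_map.2 ⟨r, h, rfl⟩))).1 rfl⟩,
    fun e he => h2 e (List.mem_append_right _ he), h3⟩

lemma Dep.update [DecidableEq X] (hQ : Dep vs Q) {σ : X → List A} {o : O} {r : X} (hr : r ∉ vs)
    (v : List A) (h : Q σ o) : Q (Function.update σ r v) o :=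
  hQ σ _ o (fun _ hx => Function.update_of_ne (by rintro rfl; exact hr hx) _ _) h

/-- Introducing a fresh variable for a remainder. -/
lemma g_fresh {w r t : X} {D : List (X × List (A ⊕ X))} {R : Sys A X} {s : A ⊕ X}
    {U U' : List (A ⊕ X)} (hQ : Dep vs Q) (h1 : r ≠ w ∧ r ∉ vs) (h2 : ∀ e ∈ D, r ≠ e.1 ∧ Sum.inr r ∉ e.2)
    (h3 : ∀ e ∈ (s :: U, Sum.inr t :: U') :: R, Sum.inr r ∉ e.1 ∧ Sum.inr r ∉ e.2)
    {σ : X → List A} (a1 : ∀ x, σ x <:+: σ w) (a2 : ∀ e ∈ D, σ e.1 = subst σ e.2)
    (a3 : Solves σ ((s :: U, Sum.inr t :: U') :: R)) (a4 : subst σ [s] <+: σ t)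
    {o : O} (a5 : Q σ o) :
    o ∈ gLang w Q ((t, [s, Sum.inr r]) :: D) ((U, Sum.inr r :: U') :: R) := by
  classical
  obtain ⟨v, hv⟩ := a4
  have b0 := h3 _ List.mem_cons_self
  simp only [List.mem_cons, not_or, Sum.inr.injEq] at b0
  have hc : ∀ U : List (A ⊕ X), Sum.inr r ∉ U → subst (Function.update σ r v) U = subst σ U :=
    fun U hU => subst_congr (fun x hx => Function.update_of_ne (by rintro rfl; exact hU hx) _ _)
  have hw : Function.update σ r v w = σ w := Function.update_of_ne h1.1.symm _ _
  have ht : Function.update σ r v t = σ t := Function.update_of_ne (Ne.symm b0.2.1) _ _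
  rw [solves_cons] at a3
  refine ⟨Function.update σ r v, fun x => ?_, fun e he => ?_, ?_, hQ.update h1.2 v a5⟩
  · rw [hw]
    by_cases hx : x = r
    · subst hx
      rw [Function.update_self]
      exact (List.IsSuffix.isInfix ⟨_, hv⟩).trans (a1 t)
    · rw [Function.update_of_ne hx]; exact a1 x
  · rcases List.mem_cons.1 he with rfl | he
    · have : subst (Function.update σ r v) [s, Sum.inr r] =
          subst (Function.update σ r v) [s] ++ v := by
        rw [show [s, Sum.inr r] = [s] ++ [Sum.inr r] from rfl, subst_append]; simp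
      simp only [this, ht, hc [s] (by simpa using b0.1.1), hv]
    · rw [Function.update_of_ne (h2 e he).1.symm, hc _ (h2 e he).2]
      exact a2 e he
  · rw [solves_cons]
    refine ⟨?_, fun e he => ?_⟩
    · rw [subst_inr, Function.update_self, hc _ b0.1.2, hc _ b0.2.2]
      have := a3.1
      rw [subst_inr, ← hv, show s :: U = [s] ++ U from rfl, subst_append, List.append_assoc]
        at this
      exact List.append_cancel_left this
    · have := h3 e (List.mem_cons_of_mem _ he)
      rw [hc _ this.1, hc _ this.2]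
      exact a3.2 e he

lemma g_fresh_back {w r t : X} {D : List (X × List (A ⊕ X))} {R : Sys A X} {s : A ⊕ X}
    {U U' : List (A ⊕ X)} :
    gLang w Q ((t, [s, Sum.inr r]) :: D) ((U, Sum.inr r :: U') :: R) ⊆
      gLang w Q D ((s :: U, Sum.inr t :: U') :: R) := by
  rintro o ⟨σ, a1, a2, a3, a5⟩
  rw [solves_cons] at a3
  refine ⟨σ, a1, fun e he => a2 e (List.mem_cons_of_mem _ he), solves_cons.2 ⟨?_, a3.2⟩, a5⟩
  have := a2 _ List.mem_cons_self
  simp only at this
  rw [subst_inr, this, show s :: U = [s] ++ U from rfl, subst_append, a3.1,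
    show [s, Sum.inr r] = [s] ++ [Sum.inr r] from rfl, subst_append]
  simp

lemma g_eps {w t : X} {D : List (X × List (A ⊕ X))} {R : Sys A X} {U U' : List (A ⊕ X)} :
    gLang w Q ((t, []) :: D) ((U, U') :: R) ⊆ gLang w Q D ((U, Sum.inr t :: U') :: R) := by
  rintro o ⟨σ, a1, a2, a3, a5⟩
  rw [solves_cons] at a3
  refine ⟨σ, a1, fun e he => a2 e (List.mem_cons_of_mem _ he), solves_cons.2 ⟨?_, a3.2⟩, a5⟩
  have := a2 _ List.mem_cons_self
  simp only [subst_nil] at this
  simp [this, a3.1]

lemma g_eps' {w t : X} {D : List (X × List (A ⊕ X))} {R : Sys A X} {U U' : List (A ⊕ X)}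
    {σ : X → List A} (a1 : ∀ x, σ x <:+: σ w) (a2 : ∀ e ∈ D, σ e.1 = subst σ e.2)
    (a3 : Solves σ ((U, Sum.inr t :: U') :: R)) (a4 : σ t = []) {o : O} (a5 : Q σ o) :
    o ∈ gLang w Q ((t, []) :: D) ((U, U') :: R) := by
  rw [solves_cons] at a3
  refine ⟨σ, a1, fun e he => ?_, solves_cons.2 ⟨by simpa [a4] using a3.1, a3.2⟩, a5⟩
  rcases List.mem_cons.1 he with rfl | he
  · simpa using a4
  · exact a2 e he

lemma g_one [Infinite X] (hQ : Dep vs Q) (w : X) (R : Sys A X)
    (hR : ∀ D, GU w Q (gLang w Q D R)) (m : ℕ) :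
    ∀ U U' : List (A ⊕ X), U.length + U'.length = m → ∀ D, GU w Q (gLang w Q D ((U, U') :: R)) := by
  induction m with
  | zero =>
    intro U U' h D
    obtain rfl : U = [] := List.length_eq_zero_iff.1 (by omega)
    obtain rfl : U' = [] := List.length_eq_zero_iff.1 (by omega)
    simpa only [gLang, solves_cons, true_and] using hR D
  | succ m ih =>
    have hnil : ∀ U' : List (A ⊕ X), U'.length = m + 1 → ∀ D,
        GU w Q (gLang w Q D (([], U') :: R)) := by
      intro U' h D
      rcases U' with _ | ⟨a | t, U'⟩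
      · simp at h
      · convert GU.empty (Q := Q) w
        simp [gLang, solves_cons]
      · convert ih [] U' (by simpa using h) ((t, []) :: D) using 1
        refine Set.Subset.antisymm ?_ g_eps
        rintro o ⟨σ, a1, a2, a3, a5⟩
        refine g_eps' a1 a2 a3 ?_ a5
        have := (solves_cons.1 a3).1
        simp only [subst_nil, subst_inr, List.nil_eq, List.append_eq_nil_iff] at this
        exact this.1
    have hlet : ∀ (a : A) (t : X) (U U' : List (A ⊕ X)), U.length + U'.length + 1 = m → ∀ D,
        GU w Q (gLang w Q D ((Sum.inl a :: U, Sum.inr t :: U') :: R)) := by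
      intro a t U U' h D
      obtain ⟨r, h1, h2, h3⟩ := exists_fresh' w vs D ((Sum.inl a :: U, Sum.inr t :: U') :: R)
      convert (ih (Sum.inl a :: U) U' (by simp; omega) ((t, []) :: D)).union
        (ih U (Sum.inr r :: U') (by simp; omega) ((t, [Sum.inl a, Sum.inr r]) :: D)) using 1
      refine Set.Subset.antisymm ?_ (Set.union_subset g_eps g_fresh_back)
      rintro o ⟨σ, a1, a2, a3, a5⟩
      rcases ht : σ t with _ | ⟨b, v⟩
      · exact Or.inl (g_eps' a1 a2 a3 ht a5)
      · refine Or.inr (g_fresh hQ h1 h2 h3 a1 a2 a3 ?_ a5)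
        have := (solves_cons.1 a3).1
        simp only [subst_inl, subst_inr, ht, List.cons_append, List.cons.injEq] at this
        simp [ht, this.1]
    intro U U' h D
    rcases U with _ | ⟨s, U⟩
    · exact hnil U' (by simpa using h) D
    rcases U' with _ | ⟨s', U'⟩
    · rw [gLang_swap]; exact hnil _ (by simpa using h) D
    simp only [List.length_cons] at h
    rcases s with a | s <;> rcases s' with a' | s'
    · by_cases ha : a = a'
      · subst ha
        rcases m with _ | m
        · omega
        obtain ⟨r, h1, h2, h3⟩ := exists_fresh' w vs D ((U, U') :: R)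
        convert ih U (Sum.inr r :: U') (by simp; omega) ((r, []) :: D) using 1
        ext u
        constructor
        · rintro ⟨σ, a1, a2, a3, a5⟩
          classical
          rw [solves_cons] at a3
          have hc : ∀ U : List (A ⊕ X), Sum.inr r ∉ U →
              subst (Function.update σ r []) U = subst σ U := fun U hU =>
            subst_congr (fun x hx => Function.update_of_ne (by rintro rfl; exact hU hx) _ _)
          have hw : Function.update σ r [] w = σ w := Function.update_of_ne h1.1.symm _ _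
          refine ⟨Function.update σ r [], fun x => ?_, fun e he => ?_, ?_, hQ.update h1.2 [] a5⟩
          · rw [hw]
            by_cases hx : x = r
            · subst hx; simp
            · rw [Function.update_of_ne hx]; exact a1 x
          · rcases List.mem_cons.1 he with rfl | he
            · simp
            · rw [Function.update_of_ne (h2 e he).1.symm, hc _ (h2 e he).2]
              exact a2 e he
          · rw [solves_cons]
            have b0 := h3 _ List.mem_cons_self
            refine ⟨?_, fun e he => ?_⟩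
            · rw [subst_inr, Function.update_self, hc _ b0.1, hc _ b0.2]
              simpa using a3.1
            · have := h3 e (List.mem_cons_of_mem _ he)
              rw [hc _ this.1, hc _ this.2]
              exact a3.2 e he
        · rintro ⟨σ, a1, a2, a3, a5⟩
          rw [solves_cons] at a3
          have := a2 _ List.mem_cons_self
          simp only [subst_nil] at this
          exact ⟨σ, a1, fun e he => a2 e (List.mem_cons_of_mem _ he),
            solves_cons.2 ⟨by simpa [this] using a3.1, a3.2⟩, a5⟩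
      · convert GU.empty (Q := Q) w
        simp [gLang, solves_cons, ha]
    · exact hlet a s' U U' (by omega) D
    · rw [gLang_swap]; exact hlet a' s U' U (by omega) D
    · obtain ⟨r, h1, h2, h3⟩ := exists_fresh' w vs D ((Sum.inr s :: U, Sum.inr s' :: U') :: R)
      have h3' : ∀ e ∈ (Sum.inr s' :: U', Sum.inr s :: U) :: R,
          Sum.inr r ∉ e.1 ∧ Sum.inr r ∉ e.2 := by
        intro e he
        rcases List.mem_cons.1 he with rfl | he
        · exact (h3 _ List.mem_cons_self).symm
        · exact h3 e (List.mem_cons_of_mem _ he)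
      convert (ih U (Sum.inr r :: U') (by simp; omega) ((s', [Sum.inr s, Sum.inr r]) :: D)).union
        (ih U' (Sum.inr r :: U) (by simp; omega) ((s, [Sum.inr s', Sum.inr r]) :: D)) using 1
      refine Set.Subset.antisymm ?_ (Set.union_subset g_fresh_back
        (by rw [gLang_swap w D]; exact g_fresh_back))
      rintro o ⟨σ, a1, a2, a3, a5⟩
      have := (solves_cons.1 a3).1
      simp only [subst_inr] at this
      rcases List.prefix_or_prefix_of_prefix (List.prefix_append (σ s) (subst σ U))
        (this ▸ List.prefix_append (σ s') (subst σ U')) with h4 | h4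
      · exact Or.inl (g_fresh hQ h1 h2 h3 a1 a2 a3 (by simpa using h4) a5)
      · refine Or.inr (g_fresh hQ h1 h2 h3' a1 a2 ?_ (by simpa using h4) a5)
        rw [solves_cons] at a3 ⊢
        exact ⟨a3.1.symm, a3.2⟩

lemma g_ucq [Infinite X] (hQ : Dep vs Q) (w : X) (R : Sys A X) :
    ∀ D, GU w Q (gLang w Q D R) := by
  induction R with
  | nil => exact fun D => ⟨[D], by simp⟩
  | cons e R ih => exact g_one hQ w R ih _ e.1 e.2 rfl

end Pool.Agent.Lib.MP_ab3cdc_lc.Reg
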