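import Pool.Agent.Lib.MP_ab3cdc_lc.Reg.RCore
import Pool.Agent.Lib.MP_ab3cdc_lc.Reg.RSafe

/-!
Word equations with regular constraints define the same relations as unions of conjunctive queries.
-/

namespace Pool.Agent.Lib.MP_ab3cdc_lc.Reg

variable {A V W X : Type}

lemma regular_wt {M : Type} [Monoid M] [Finite M] (f : A → M) (S : Set M) :
    Language.IsRegular (T := A) {x | wt f x ∈ S} := by
  let D : DFA A M := ⟨fun m a => m * f a, 1, S⟩
  have h : ∀ (x : List A) (m : M), D.evalFrom m x = m * wt f x := by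
    intro x
    induction x with
    | nil => intro m; simp
    | cons a x ih =>
      intro m
      rw [wt_cons, ← mul_assoc, ← ih]
      rfl
  refine ⟨M, Fintype.ofFinite M, D, ?_⟩
  ext x
  rw [DFA.mem_accepts, DFA.eval, h]
  change 1 * wt f x ∈ S ↔ wt f x ∈ S
  rw [one_mul]

lemma monoid_of_regular {L : Language A} (h : L.IsRegular) :
    ∃ (M : Type) (_ : Monoid M) (_ : Finite M) (f : A → M),
      ∀ x y, wt f x = wt f y → x ∈ L → y ∈ L := by
  obtain ⟨σ, _, D, rfl⟩ := h
  let f : A → (Function.End σ)ᵐᵒᵖ := fun a => MulOpposite.op (fun q => D.step q a)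
  have h : ∀ (x : List A) (q : σ), D.evalFrom q x = (wt f x).unop q := by
    intro x
    induction x with
    | nil => intro q; rfl
    | cons a x ih =>
      intro q
      rw [wt_cons, MulOpposite.unop_mul]
      exact ih _
  have : Finite (Function.End σ) := inferInstanceAs (Finite (σ → σ))
  refine ⟨_, inferInstance, Finite.of_equiv _ MulOpposite.opEquiv, f, fun x y hxy hx => ?_⟩
  rw [DFA.mem_accepts, DFA.eval, h] at hx ⊢
  rwa [← hxy]

lemma monoid_of_list (κ : List (V × Language A)) (h : ∀ c ∈ κ, c.2.IsRegular) :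
    ∃ (M : Type) (_ : Monoid M) (_ : Finite M) (f : A → M),
      ∀ c ∈ κ, ∀ x y, wt f x = wt f y → x ∈ c.2 → y ∈ c.2 := by
  induction κ with
  | nil => exact ⟨Unit, inferInstance, inferInstance, fun _ => (), by simp⟩
  | cons c κ ih =>
    obtain ⟨M, _, _, f, h1⟩ := monoid_of_regular (h c List.mem_cons_self)
    obtain ⟨M', _, _, f', h2⟩ := ih fun c hc => h c (List.mem_cons_of_mem _ hc)
    have e : ∀ x, wt (fun a => (f a, f' a)) x = (wt f x, wt f' x) := by
      intro x
      induction x with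
      | nil => rfl
      | cons a x ih => simp [ih]
    refine ⟨M × M', inferInstance, inferInstance, fun a => (f a, f' a), fun d hd x y hxy => ?_⟩
    rw [e, e, Prod.mk.injEq] at hxy
    rcases List.mem_cons.1 hd with rfl | hd
    · exact h1 x y hxy.1
    · exact h2 d hd x y hxy.2

lemma wt_subst {M : Type} [Monoid M] (f : A → M) (τ : V → List A) (U : List (A ⊕ V)) :
    wt f (subst τ U) = wt (Sum.elim f fun x => wt f (τ x)) U := by
  induction U with
  | nil => rfl
  | cons t U ih => cases t <;> simp [ih]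

variable {w : X} {ys : List X}

lemma ucq_empty : ∅ ∈ ucqClass A w ys := ⟨[], by simp, by simp⟩

lemma ucq_union {L L' : Set (List A × List (List A))} (h : L ∈ ucqClass A w ys)
    (h' : L' ∈ ucqClass A w ys) : L ∪ L' ∈ ucqClass A w ys := by
  obtain ⟨Φ, a, rfl⟩ := h
  obtain ⟨Φ', a', rfl⟩ := h'
  refine ⟨Φ ++ Φ', fun q hq => (List.mem_append.1 hq).elim (a q) (a' q), ?_⟩
  ext u
  simp only [Set.mem_union, Set.mem_ofPred_eq, List.mem_append, or_and_right, exists_or]

lemma ucq_biUnion {ι : Type} {s : Set ι} (hs : s.Finite) {L : ι → Set (List A × List (List A))}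
    (h : ∀ i ∈ s, L i ∈ ucqClass A w ys) : (⋃ i ∈ s, L i) ∈ ucqClass A w ys := by
  induction s, hs using Set.Finite.induction_on with
  | empty => simpa using ucq_empty
  | insert _ _ ih =>
    rw [Set.biUnion_insert]
    exact ucq_union (h _ (Set.mem_insert _ _))
      (ih (fun i hi => h i (Set.mem_insert_of_mem _ hi)))

lemma ucq_safe [Infinite X] (κ : List (X × Language A)) (hκ : ∀ c ∈ κ, c.2.IsRegular)
    (D : List (X × List (A ⊕ X))) (R : Sys A X) :
    gLang w (fun σ o => (∀ c ∈ κ, σ c.1 ∈ c.2) ∧ o = (σ w, ys.map σ)) D R ∈ ucqClass A w ys := by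
  have hQ : Dep (w :: (ys ++ κ.map Prod.fst))
      (fun (σ : X → List A) o => (∀ c ∈ κ, σ c.1 ∈ c.2) ∧ o = (σ w, ys.map σ)) := by
    rintro σ τ o h ⟨h1, rfl⟩
    refine ⟨fun c hc => ?_, ?_⟩
    · rw [h c.1 (List.mem_cons_of_mem _ (List.mem_append_right _ (List.mem_map_of_mem hc)))]
      exact h1 c hc
    · rw [h w List.mem_cons_self, List.map_congr_left (f := τ) (g := σ)
        fun y hy => h y (List.mem_cons_of_mem _ (List.mem_append_left _ hy))]
  obtain ⟨Φ, h⟩ := g_ucq hQ w R D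
  refine ⟨Φ.map fun φ => (φ, κ), ?_, ?_⟩
  · intro q hq
    obtain ⟨φ, -, rfl⟩ := List.mem_map.1 hq
    exact hκ
  · rw [h]
    ext o
    simp [gLang, cqRel, Solves]

/-- The relation given by a system of equations and constraints. -/
def sysRel (j : X → V) (w : X) (ys : List X) (E : Sys A V) (κ : List (V × Language A)) :
    Set (List A × List (List A)) :=
  {o | ∃ σ : V → List A, Solves σ E ∧ (∀ c ∈ κ, σ c.1 ∈ c.2) ∧
    (∀ y ∈ ys, σ (j y) <:+: σ (j w)) ∧ o = (σ (j w), ys.map fun y => σ (j y))}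

lemma sys_fin [Finite A] [Finite V] [Infinite X] (j : X → V) (E : Sys A V)
    (κ : List (V × Language A)) (hκ : ∀ c ∈ κ, c.2.IsRegular) :
    sysRel j w ys E κ ∈ ucqClass A w ys := by
  classical
  obtain ⟨M, _, _, g, hg⟩ := monoid_of_list κ hκ
  obtain ⟨n, hn⟩ := exists_sizeLe E
  obtain ⟨C, hC⟩ := core_reg V n g
  have : Infinite {x : X // x ∉ w :: ys} :=
    Set.infinite_coe_iff.2 (List.finite_toSet (w :: ys)).infinite_compl
  obtain ⟨y₀⟩ : Nonempty (V × Fin C ↪ {x : X // x ∉ w :: ys}) := by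
    obtain ⟨m, ⟨e⟩⟩ := Finite.exists_equiv_fin (V × Fin C)
    exact ⟨e.toEmbedding.trans (Fin.valEmbedding.trans (Infinite.natEmbedding _))⟩
  let _ : Fintype V := Fintype.ofFinite V
  let y : V × Fin C → X := fun i => (y₀ i).1
  have hy : Function.Injective y := Subtype.val_injective.comp y₀.injective
  have hyw : ∀ i, y i ∉ w :: ys := fun i => (y₀ i).2
  let sh : (V → List (A ⊕ (V × Fin C))) → V → List (A ⊕ X) := fun s x => (s x).map (Sum.map id y)
  let bd : (V → List (A ⊕ X)) → List (A ⊕ V) → List (A ⊕ X) := fun s U =>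
    U.flatMap (Sum.elim (fun a => [Sum.inl a]) s)
  let kp : (V × Fin C → M) → List (X × Language A) := fun μ =>
    Finset.univ.toList.map fun i => (y i, {z | wt g z ∈ ({μ i} : Set M)})
  have hkp : ∀ μ (ρ : X → List A), (∀ c ∈ kp μ, ρ c.1 ∈ c.2) ↔ ∀ i, wt g (ρ (y i)) = μ i := by
    intro μ ρ
    simp only [kp, List.forall_mem_map, Finset.mem_toList, Finset.mem_univ, forall_const]
    rfl
  let L : (V → List (A ⊕ (V × Fin C))) × (V × Fin C → M) → Set (List A × List (List A)) :=
    fun p => gLang w (fun σ o => (∀ c ∈ kp p.2, σ c.1 ∈ c.2) ∧ o = (σ w, ys.map σ))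
      ((w :: ys).map fun z => (z, sh p.1 (j z)))
      (E.map (fun e => (bd (sh p.1) e.1, bd (sh p.1) e.2)))
  have hfin : {p : (V → List (A ⊕ (V × Fin C))) × (V × Fin C → M) | (∀ x, (p.1 x).length ≤ C) ∧
      ∀ c ∈ κ, ∀ z, wt g z = wt (Sum.elim g p.2) (p.1 c.1) → z ∈ c.2}.Finite :=
    ((Set.Finite.pi' (fun _ => List.finite_length_le _ C)).prod Set.finite_univ).subset
      fun p hp => ⟨hp.1, trivial⟩
  convert ucq_biUnion hfin (L := L) (fun p _ => ucq_safe _ (fun c hc => by
    obtain ⟨i, -, rfl⟩ := List.mem_map.1 hc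
    exact regular_wt g _) _ _) using 1
  ext u
  simp only [Set.mem_iUnion, Set.mem_ofPred_eq, exists_prop]
  constructor
  · rintro ⟨σ₀, h₀, k₀, s₀, rfl⟩
    let F : Set (List A) := {z | z <:+: σ₀ (j w) ∨ z.length ≤ 1}
    obtain ⟨σ, h1, h2, h4, h3⟩ := hC E hn F
      (fun a b hb ha => ha.imp hb.trans (fun h => hb.length_le.trans h)) (Or.inr (by simp))
      (fun a => Or.inr (by simp)) σ₀ h₀
    have s₁ : ∀ z ∈ w :: ys, σ₀ (j z) <:+: σ₀ (j w) := by
      intro z hz
      rcases List.mem_cons.1 hz with rfl | hz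
      exacts [List.infix_rfl, s₀ z hz]
    choose l hl1 hl2 hl3 using h3
    let f : V × Fin C → List A := fun i =>
      if (l i.1)[i.2.1]?.getD [] <:+: σ₀ (j w) then (l i.1)[i.2.1]?.getD [] else []
    let ρ : X → List A := fun x =>
      if x ∈ w :: ys then σ₀ (j x) else Function.extend y f (fun _ => []) x
    have hρz : ∀ z ∈ w :: ys, ρ z = σ₀ (j z) := fun z hz => if_pos hz
    have hρw : ρ w = σ₀ (j w) := hρz w List.mem_cons_self
    have hρy : ∀ i, ρ (y i) = f i := fun i => by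
      simp only [ρ, if_neg (hyw i), hy.extend_apply]
    have hs : ∀ x, ∃ s : List (A ⊕ (V × Fin C)), s.length ≤ C ∧ subst f s = σ x := by
      intro x
      have key : ∀ (l' : List (List A)) (i : ℕ), (l x).drop i = l' →
          ∃ s : List (A ⊕ (V × Fin C)), s.length ≤ l'.length ∧ subst f s = l'.flatten := by
        intro l'
        induction l' with
        | nil => intro i _; exact ⟨[], le_rfl, rfl⟩
        | cons z l' ih =>
          intro i hj
          have hj1 : i < (l x).length := by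
            have := congrArg List.length hj
            simp at this; omega
          have hj2 : (l x)[i]? = some z := by
            have := congrArg (fun t => t[0]?) hj
            simpa using this
          obtain ⟨s, s1, s2⟩ := ih (i + 1) (by rw [← List.drop_drop, hj]; rfl)
          rcases hl2 x z (List.mem_of_getElem? hj2) with hz | hz
          · refine ⟨Sum.inr (x, ⟨i, hj1.trans_le (hl1 x)⟩) :: s, by simpa using s1, ?_⟩
            simp [s2, f, hj2, hz]
          · refine ⟨z.map Sum.inl ++ s, by simp; omega, by simp [s2]⟩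
      obtain ⟨s, s1, s2⟩ := key (l x) 0 rfl
      exact ⟨s, s1.trans (hl1 x), s2.trans (hl3 x)⟩
    choose s hs1 hs2 using hs
    have hsub : ∀ x, subst ρ (sh s x) = σ x := by
      intro x
      simp only [sh, subst_rename, hρy]
      exact hs2 x
    refine ⟨(s, fun i => wt g (f i)), ⟨hs1, fun c hc z hz => ?_⟩, ρ, fun x => ?_, ?_, ?_,
      (hkp _ _).2 fun i => by rw [hρy], ?_⟩
    · rw [← wt_subst, hs2, h4] at hz
      exact hg c hc _ _ hz.symm (k₀ c hc)
    · rw [hρw]
      by_cases hx : x ∈ w :: ys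
      · rw [hρz x hx]
        exact s₁ x hx
      · by_cases hx' : ∃ i, y i = x
        · obtain ⟨i, rfl⟩ := hx'
          rw [hρy]
          simp only [f]
          split_ifs with h
          · exact h
          · exact List.nil_infix
        · simp only [ρ, if_neg hx, Function.extend_apply' _ _ _ hx']
          exact List.nil_infix
    · intro e he
      obtain ⟨z, hz, rfl⟩ := List.mem_map.1 he
      simp only [hsub]
      rw [hρz z hz, h2 _ (Or.inl (s₁ z hz))]
    · intro e he
      obtain ⟨e₀, he₀, rfl⟩ := List.mem_map.1 he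
      simp only [bd, subst_bind, hsub]
      exact h1 e₀ he₀
    · rw [hρw, List.map_congr_left (f := ρ) fun z hz => hρz z (List.mem_cons_of_mem _ hz)]
  · rintro ⟨⟨s, μ⟩, ⟨-, h0⟩, ρ, h1, h2, h3, h4, rfl⟩
    have hz : ∀ z ∈ w :: ys, subst ρ (sh s (j z)) = ρ z := fun z hz =>
      (h2 _ (List.mem_map.2 ⟨z, hz, rfl⟩)).symm
    refine ⟨fun x => subst ρ (sh s x), fun e he => ?_, fun c hc => h0 c hc _ ?_, fun z h => ?_, ?_⟩
    · simpa only [bd, subst_bind] using h3 _ (List.mem_map.2 ⟨e, he, rfl⟩)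
    · simp only [sh, subst_rename, wt_subst, (hkp μ ρ).1 h4]
    · simp only [hz z (List.mem_cons_of_mem _ h), hz w List.mem_cons_self]
      exact h1 z
    · simp only [hz w List.mem_cons_self]
      rw [List.map_congr_left (g := ρ) fun z h => hz z (List.mem_cons_of_mem _ h)]

lemma sys_all [Finite A] [Infinite X] (j : X → V) (E : Sys A V)
    (κ : List (V × Language A)) (hκ : ∀ c ∈ κ, c.2.IsRegular) :
    sysRel j w ys E κ ∈ ucqClass A w ys := by
  classical
  let S : Finset V := ((w :: ys).map j ++ (κ.map Prod.fst ++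
    E.flatMap (fun e => (e.1 ++ e.2).filterMap Sum.getRight?))).toFinset
  let r : V → Option S := fun x => if h : x ∈ S then some ⟨x, h⟩ else none
  convert sys_fin (w := w) (ys := ys) (fun x => r (j x)) (ren r E)
    (κ.map fun c => (r c.1, c.2)) (fun c hc => by
      obtain ⟨d, hd, rfl⟩ := List.mem_map.1 hc
      exact hκ d hd) using 1
  ext u
  constructor
  · rintro ⟨σ, h1, h2, h3, rfl⟩
    let ρ : Option S → List A := fun o => o.elim [] (fun x => σ x.1)
    have hρ : ∀ x ∈ S, ρ (r x) = σ x := fun x hx => by simp [ρ, r, hx]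
    have hz : ∀ z ∈ w :: ys, ρ (r (j z)) = σ (j z) := fun z hz => hρ _
      (List.mem_toFinset.2 (List.mem_append_left _ (List.mem_map_of_mem hz)))
    refine ⟨ρ, (solves_ren _ _ _).2 (fun e he => ?_), fun c hc => ?_, fun z h => ?_, ?_⟩
    · have hm : ∀ x, Sum.inr x ∈ e.1 ∨ Sum.inr x ∈ e.2 → x ∈ S := by
        intro x hx
        simp only [S, List.mem_toFinset, List.mem_flatMap, List.mem_filterMap,
          List.mem_append, Sum.getRight?_eq_some_iff, exists_eq_right]
        exact Or.inr (Or.inr ⟨e, he, hx⟩)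
      rw [subst_congr (τ := σ) (fun x hx => hρ x (hm x (Or.inl hx))),
        subst_congr (τ := σ) (fun x hx => hρ x (hm x (Or.inr hx)))]
      exact h1 e he
    · obtain ⟨d, hd, rfl⟩ := List.mem_map.1 hc
      simp only
      rw [hρ _ (List.mem_toFinset.2 (List.mem_append_right _ (List.mem_append_left _
        (List.mem_map_of_mem hd))))]
      exact h2 d hd
    · simp only [hz z (List.mem_cons_of_mem _ h), hz w List.mem_cons_self]
      exact h3 z h
    · simp only [hz w List.mem_cons_self]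
      rw [List.map_congr_left (g := fun z => σ (j z)) fun z h => hz z (List.mem_cons_of_mem _ h)]
  · rintro ⟨ρ, h1, h2, h3, rfl⟩
    exact ⟨_, (solves_ren _ _ _).1 h1, fun c hc => h2 _ (List.mem_map.2 ⟨c, hc, rfl⟩), h3, rfl⟩

/-- Equations and constraints hold. -/
def Ok (ρ : V → List A) (E : Sys A V) (κ : List (V × Language A)) : Prop :=
  Solves ρ E ∧ ∀ c ∈ κ, ρ c.1 ∈ c.2

lemma ok_ren (ρ : W → List A) (r : V → W) (E : Sys A V) (κ : List (V × Language A)) :
    Ok ρ (ren r E) (κ.map fun c => (r c.1, c.2)) ↔ Ok (fun x => ρ (r x)) E κ := by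
  simp only [Ok, solves_ren, List.forall_mem_map]

lemma ok_append (ρ : V → List A) (E E' : Sys A V) (κ κ' : List (V × Language A)) :
    Ok ρ (E ++ E') (κ ++ κ') ↔ Ok ρ E κ ∧ Ok ρ E' κ' := by
  simp only [Ok, Solves, List.mem_append, or_imp, forall_and]
  tauto

lemma reg_map (r : V → W) {κ : List (V × Language A)} (h : ∀ c ∈ κ, c.2.IsRegular) :
    ∀ c ∈ κ.map fun c => (r c.1, c.2), c.2.IsRegular := by
  intro c hc
  obtain ⟨d, hd, rfl⟩ := List.mem_map.1 hc
  exact h d hd

/-- Projections of solution sets of systems with constraints. -/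
def PR (R : (X → List A) → Prop) : Prop :=
  ∃ (V : Type) (E : Sys A (X ⊕ V)) (κ : List ((X ⊕ V) × Language A)), (∀ c ∈ κ, c.2.IsRegular) ∧
    ∀ σ, R σ ↔ ∃ τ : V → List A, Ok (Sum.elim σ τ) E κ

lemma PR.and {R R' : (X → List A) → Prop} (h : PR R) (h' : PR R') :
    PR (fun σ => R σ ∧ R' σ) := by
  obtain ⟨V, E, κ, k, h⟩ := h
  obtain ⟨V', E', κ', k', h'⟩ := h'
  refine ⟨V ⊕ V', ren (Sum.map id Sum.inl) E ++ ren (Sum.map id Sum.inr) E',
    (κ.map fun c => (Sum.map id Sum.inl c.1, c.2)) ++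
      κ'.map fun c => (Sum.map id Sum.inr c.1, c.2),
    fun c hc => (List.mem_append.1 hc).elim (reg_map _ k c) (reg_map _ k' c), fun σ => ?_⟩
  have e1 : ∀ τ : V ⊕ V' → List A, (fun x => Sum.elim σ τ (Sum.map id Sum.inl x)) =
      Sum.elim σ (fun x => τ (Sum.inl x)) := by intro τ; funext x; cases x <;> rfl
  have e2 : ∀ τ : V ⊕ V' → List A, (fun x => Sum.elim σ τ (Sum.map id Sum.inr x)) =
      Sum.elim σ (fun x => τ (Sum.inr x)) := by intro τ; funext x; cases x <;> rfl
  simp only [ok_append, ok_ren, e1, e2, h, h']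
  constructor
  · rintro ⟨⟨τ, h1⟩, τ', h2⟩
    exact ⟨Sum.elim τ τ', h1, h2⟩
  · rintro ⟨τ, h1, h2⟩
    exact ⟨⟨_, h1⟩, _, h2⟩

lemma PR.ex {R : (X → List A) → Prop} (h : PR R) (x : X) :
    PR (fun σ => ∃ τ : X → List A, (∀ y, y ≠ x → τ y = σ y) ∧ R τ) := by
  classical
  obtain ⟨V, E, κ, k, h⟩ := h
  let r : X ⊕ V → X ⊕ Option V :=
    Sum.elim (fun y => if y = x then Sum.inr none else Sum.inl y) (fun v => Sum.inr (some v))
  refine ⟨Option V, ren r E, κ.map fun c => (r c.1, c.2), reg_map _ k, fun σ => ?_⟩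
  simp only [ok_ren, h]
  constructor
  · rintro ⟨τ, h1, ρ, h2⟩
    refine ⟨fun o => o.elim (τ x) ρ, ?_⟩
    convert h2 using 1
    funext z
    rcases z with y | v
    · by_cases hy : y = x
      · simp [r, hy]
      · simp [r, hy, h1 y hy]
    · simp [r]
  · rintro ⟨ρ, h1⟩
    refine ⟨fun y => if y = x then ρ none else σ y, fun y hy => if_neg hy,
      fun v => ρ (some v), ?_⟩
    convert h1 using 1
    funext z
    rcases z with y | v
    · by_cases hy : y = x
      · simp [r, hy]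
      · simp [r, hy]
    · simp [r]

lemma epr_normal (φ : EPR A X) : ∃ (ι : Type) (_ : Finite ι) (R : ι → (X → List A) → Prop),
    (∀ i, PR (R i)) ∧ ∀ σ, φ.Sat σ ↔ ∃ i, R i σ := by
  induction φ with
  | eqn α β =>
    refine ⟨Unit, inferInstance, fun _ σ => subst σ α = subst σ β, fun _ => ?_,
      fun σ => by simp [EPR.Sat]⟩
    refine ⟨Empty, ren Sum.inl [(α, β)], [], by simp, fun σ => ?_⟩
    simp only [Ok, solves_ren, Sum.elim_inl, solves_cons]
    exact ⟨fun h => ⟨Empty.elim, ⟨h, by simp [Solves]⟩, by simp⟩, fun ⟨_, ⟨h, _⟩, _⟩ => h⟩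
  | mem x L hL =>
    refine ⟨Unit, inferInstance, fun _ σ => σ x ∈ L, fun _ => ?_, fun σ => by simp [EPR.Sat]⟩
    refine ⟨Empty, [], [(Sum.inl x, L)], by simpa using hL, fun σ => ?_⟩
    simp [Ok, Solves]
  | conj φ ψ ih1 ih2 =>
    obtain ⟨ι, _, R, h1, h2⟩ := ih1
    obtain ⟨ι', _, R', h1', h2'⟩ := ih2
    refine ⟨ι × ι', inferInstance, fun i σ => R i.1 σ ∧ R' i.2 σ,
      fun i => (h1 i.1).and (h1' i.2), fun σ => ?_⟩
    simp only [EPR.Sat, h2, h2', Prod.exists, exists_and_left, exists_and_right]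
  | disj φ ψ ih1 ih2 =>
    obtain ⟨ι, _, R, h1, h2⟩ := ih1
    obtain ⟨ι', _, R', h1', h2'⟩ := ih2
    refine ⟨ι ⊕ ι', inferInstance, Sum.elim R R', fun i => ?_, fun σ => ?_⟩
    · cases i with
      | inl i => exact h1 i
      | inr i => exact h1' i
    · simp only [EPR.Sat, h2, h2', Sum.exists, Sum.elim_inl, Sum.elim_inr]
  | ex x φ ih =>
    obtain ⟨ι, _, R, h1, h2⟩ := ih
    refine ⟨ι, inferInstance, fun i σ => ∃ τ : X → List A, (∀ y, y ≠ x → τ y = σ y) ∧ R i τ,
      fun i => (h1 i).ex x, fun σ => ?_⟩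
    simp only [EPR.Sat, h2]
    constructor
    · rintro ⟨τ, a, i, b⟩; exact ⟨i, τ, a, b⟩
    · rintro ⟨i, τ, a, b⟩; exact ⟨τ, a, i, b⟩

theorem epr_ucq [Finite A] [Infinite X] : eprClass A w ys ⊆ ucqClass A w ys := by
  rintro _ ⟨φ, rfl⟩
  obtain ⟨ι, _, R, h1, h2⟩ := epr_normal φ
  choose V E κ hκ hE using h1
  convert ucq_biUnion (w := w) (ys := ys) (Set.finite_univ (α := ι))
    (L := fun i => sysRel Sum.inl w ys (E i) (κ i)) (fun i _ => sys_all _ _ _ (hκ i)) using 1
  ext u
  simp only [Set.mem_ofPred_eq, h2, hE, Set.mem_univ, Set.iUnion_true, Set.mem_iUnion, sysRel]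
  constructor
  · rintro ⟨σ, ⟨i, τ, h⟩, h3, rfl⟩
    exact ⟨i, _, h.1, h.2, h3, rfl⟩
  · rintro ⟨i, ρ, h, h', h3, rfl⟩
    refine ⟨fun x => ρ (Sum.inl x), ⟨i, fun v => ρ (Sum.inr v), ?_⟩, h3, rfl⟩
    have e : (Sum.elim (fun x => ρ (Sum.inl x)) fun v => ρ (Sum.inr v)) = ρ := by
      funext z; cases z <;> rfl
    rw [e]
    exact ⟨h, h'⟩

lemma sat_foldr (b : EPR A X) (l : List (EPR A X)) (σ : X → List A) :
    (l.foldr EPR.conj b).Sat σ ↔ b.Sat σ ∧ ∀ φ ∈ l, φ.Sat σ := by
  induction l with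
  | nil => simp
  | cons φ l ih => simp only [List.foldr_cons, EPR.Sat, ih, List.forall_mem_cons]; tauto

lemma cq_epr [Infinite X] (φ : List (X × List (A ⊕ X))) (κ : List (X × Language A))
    (hκ : ∀ c ∈ κ, c.2.IsRegular) : cqRel w ys φ κ ∈ eprClass A w ys := by
  classical
  have hps : ∀ x : X, ∃ ψ : EPR A X, ∀ σ, ψ.Sat σ ↔ σ x <:+: σ w := by
    intro x
    obtain ⟨p, hp⟩ := Infinite.exists_notMem_finset ({w, x} : Finset X)
    obtain ⟨s, hs⟩ := Infinite.exists_notMem_finset ({w, x, p} : Finset X)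
    simp only [Finset.mem_insert, Finset.mem_singleton, not_or] at hp hs
    refine ⟨.ex p (.ex s (.eqn [Sum.inr w] [Sum.inr p, Sum.inr x, Sum.inr s])), fun σ => ?_⟩
    simp only [EPR.Sat, subst_inr, subst_nil, List.append_nil]
    constructor
    · rintro ⟨τ, h1, ρ, h2, h3⟩
      rw [h2 w (Ne.symm hs.1), h1 w (Ne.symm hp.1), h2 x (Ne.symm hs.2.1),
        h1 x (Ne.symm hp.2)] at h3
      exact ⟨_, _, by rw [h3, List.append_assoc]⟩
    · rintro ⟨a, b, h⟩
      refine ⟨Function.update σ p a, fun y hy => Function.update_of_ne hy _ _,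
        Function.update (Function.update σ p a) s b, fun y hy => Function.update_of_ne hy _ _, ?_⟩
      rw [Function.update_of_ne (Ne.symm hs.1), Function.update_of_ne (Ne.symm hp.1),
        Function.update_of_ne (Ne.symm hs.2.2), Function.update_self,
        Function.update_of_ne (Ne.symm hs.2.1), Function.update_of_ne (Ne.symm hp.2),
        Function.update_self, ← h, List.append_assoc]
  choose sf hsf using hps
  let vs : List X := w :: (ys ++ (κ.map Prod.fst ++
    φ.flatMap (fun e => e.1 :: e.2.filterMap Sum.getRight?)))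
  let b : EPR A X := (φ.map (fun e => EPR.eqn [Sum.inr e.1] e.2) ++
    (κ.attach.map (fun c => EPR.mem c.1.1 c.1.2 (hκ c.1 c.2)) ++ vs.map sf)).foldr EPR.conj
    (EPR.eqn [] [])
  have hb : ∀ σ, b.Sat σ ↔ (∀ e ∈ φ, σ e.1 = subst σ e.2) ∧ (∀ c ∈ κ, σ c.1 ∈ c.2) ∧
      ∀ x ∈ vs, σ x <:+: σ w := by
    intro σ
    simp only [b, sat_foldr, EPR.Sat, true_and, List.mem_append, or_imp, forall_and,
      List.forall_mem_map, hsf, subst_inr, subst_nil, List.append_nil, List.mem_attach,
      forall_const, Subtype.forall]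
  refine ⟨b, ?_⟩
  ext u
  simp only [Set.mem_ofPred_eq, hb, cqRel]
  constructor
  · rintro ⟨σ, h1, h2, h3, rfl⟩
    exact ⟨σ, ⟨h2, h3, fun x _ => h1 x⟩, fun x _ => h1 x, rfl⟩
  · rintro ⟨τ, ⟨h2, h4, h3⟩, -, rfl⟩
    let ρ : X → List A := fun x => if x ∈ vs then τ x else []
    have hρ : ∀ x ∈ vs, ρ x = τ x := fun x hx => if_pos hx
    have hρw : ρ w = τ w := hρ w List.mem_cons_self
    have hφ : ∀ e ∈ φ, ∀ x, x = e.1 ∨ Sum.inr x ∈ e.2 → ρ x = τ x := by
      intro e he x hx
      refine hρ x ?_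
      simp only [vs, List.mem_cons, List.mem_append, List.mem_flatMap, List.mem_filterMap,
        Sum.getRight?_eq_some_iff, exists_eq_right]
      exact Or.inr (Or.inr (Or.inr ⟨e, he, hx⟩))
    refine ⟨ρ, fun x => ?_, fun e he => ?_, fun c hc => ?_, ?_⟩
    · rw [hρw]
      simp only [ρ]
      split_ifs with h
      · exact h3 x h
      · exact List.nil_infix
    · rw [hφ e he _ (Or.inl rfl), subst_congr (τ := τ) (fun x hx => hφ e he x (Or.inr hx))]
      exact h2 e he
    · rw [hρ _ (List.mem_cons_of_mem _ (List.mem_append_right _ (List.mem_append_left _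
        (List.mem_map_of_mem hc))))]
      exact h4 c hc
    · rw [hρw, List.map_congr_left (f := ρ) (g := τ)
        fun y hy => hρ y (List.mem_cons_of_mem _ (List.mem_append_left _ hy))]

theorem classes_eq_reg [Finite A] [Infinite X] (w : X) (ys : List X) :
    ucqClass A w ys = eprClass A w ys := by
  refine Set.Subset.antisymm ?_ epr_ucq
  rintro _ ⟨Φ, h1, rfl⟩
  induction Φ with
  | nil =>
    refine ⟨.mem w _ (regular_wt (fun _ => ()) ∅), ?_⟩
    ext u
    simp only [List.not_mem_nil, false_and, exists_false, Set.mem_ofPred_eq, false_iff]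
    rintro ⟨σ, h, -⟩
    exact h
  | cons q Φ ih =>
    obtain ⟨φ, h2⟩ := cq_epr (w := w) (ys := ys) q.1 q.2 (h1 q List.mem_cons_self)
    obtain ⟨ψ, h3⟩ := ih fun q hq => h1 q (List.mem_cons_of_mem _ hq)
    refine ⟨φ.disj ψ, ?_⟩
    ext u
    have h4 := Set.ext_iff.1 h3 u
    simp only [Set.mem_ofPred_eq] at h4
    simp only [List.mem_cons, Set.mem_ofPred_eq, h4, EPR.Sat, or_and_right, exists_or,
      exists_eq_left]
    rw [h2]
    rfl

end Pool.Agent.Lib.MP_ab3cdc_lc.Reg
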